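import Pool.Agent.MPf3e214.Lower

set_option autoImplicit false

namespace Pool.Agent.Results.MP_f3e214_co.EqualSubdivision

open Pool.Agent.MPf3e214 Pool.Agent.MPf3e214.MultiGraph

/-- For every connected quasi-banana graph `G` and every `m`, the graph obtained from `G` by
replacing each edge by a path with `m` internal vertices is gonality-tight, and every divisor on
`G` that realises the second gonality of `G` also realises the second gonality of that graph. -/
theorem result {V E : Type*} [Fintype V] [Fintype E] [DecidableEq V] [DecidableEq E]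
    (G : MultiGraph V E) (hG : G.Connected) (hQ : G.QuasiBanana) (m : ℕ) :
    (G.subdivide m).GonalityTight ∧
      ∀ D : V → ℤ, G.Realises 2 D → (G.subdivide m).Realises 2 (extend m D) := by
  obtain ⟨⟨d, hd1, hd2⟩, v0, hv0, hv0g⟩ := hQ
  haveI : Nonempty V := ⟨v0⟩
  haveI : Nonempty (V ⊕ E × Fin m) := ⟨Sum.inl v0⟩
  have hDv : (fun w => if w = v0 then (2 : ℤ) else 1) = fun w => 1 + chip v0 w := by
    funext w
    unfold chip
    split_ifs <;> norm_num
  rw [hDv] at hv0 hv0g
  have hdegv : deg (fun w => 1 + chip v0 w) = Fintype.card V + 1 := by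
    rw [deg_add, deg_chip, deg_const, mul_one]
  have hd : d = Fintype.card V := by
    have h1 := IsLeast.unique hd2 hv0g
    rw [hdegv] at h1
    linarith
  subst hd
  have hQB : G.QB v0 := ⟨hG, fun D hD => G.le_deg_of_gonality' hd1 hD, hv0.1⟩
  have hlow : ∀ D : V ⊕ E × Fin m → ℤ, (G.subdivide m).RankGE D 1 →
      (Fintype.card V : ℤ) ≤ deg D := fun D hD => hQB.lower hD
  have htwo : ∀ D : V → ℤ, G.Realises 2 D →
      (G.subdivide m).HasRank (extend m D) 2 ∧
        (G.subdivide m).IsGonality 2 (Fintype.card V + 1) ∧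
        deg (extend (E := E) m D) = Fintype.card V + 1 := by
    intro D hD
    have hdeg : deg D = Fintype.card V + 1 := IsLeast.unique hD.2 hd2
    have h1 := realises_two (G.subdivide m) hlow (G.rankGE_extend m hG hD.1.1)
      (by rw [deg_extend, hdeg])
    exact ⟨h1.1, h1.2, by rw [deg_extend, hdeg]⟩
  constructor
  · refine ⟨Fintype.card V, ?_, ?_⟩
    · obtain ⟨⟨D1, hD1, hdeg1⟩, -⟩ := hd1
      exact (realises_one (G.subdivide m) hlow (G.rankGE_extend m hG hD1.1)
        (by rw [deg_extend, hdeg1])).2
    · exact (htwo _ ⟨hv0, hv0g⟩).2.1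
  · intro D hD
    obtain ⟨h1, h2, h3⟩ := htwo D hD
    refine ⟨h1, ?_⟩
    rw [h3]
    exact h2

end Pool.Agent.Results.MP_f3e214_co.EqualSubdivision
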